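import Pool.Agent.W550.LG2.Stm

set_option autoImplicit false
open Topology Filter Set
open scoped ContDiff InnerProductSpace

namespace Pool.Agent.W538.LG2

open Pool.Agent.W617.LG Pool.Agent.W550.LG2

section generic
variable {V : Type*} [NormedAddCommGroup V] [NormedSpace ℝ V]
variable {X : Type*} [NormedAddCommGroup X] [NormedSpace ℝ X]

theorem gen1 {F : V → X} (y w : V) (s : ℝ) (h : ContDiffAt ℝ ∞ F (y + s • w)) :
    HasDerivAt (fun t : ℝ => F (y + t • w)) (fderiv ℝ F (y + s • w) w) s := by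
  have hd : HasFDerivAt F (fderiv ℝ F (y + s • w)) (y + s • w) :=
    (h.differentiableAt (by simp)).hasFDerivAt
  have hl : HasDerivAt (fun t : ℝ => y + t • w) w s := by
    simpa using ((hasDerivAt_id s).smul_const w).const_add y
  exact HasFDerivAt.comp_hasDerivAt s hd hl

theorem gen2 {F : V → X} (x w : V) (h : ContDiffAt ℝ ∞ F x) :
    DifferentiableAt ℝ (fun z => fderiv ℝ F z w) x := by
  have hc : ContDiffAt ℝ ∞ (fderiv ℝ F) x := h.fderiv_right (by simp)
  have h1 : DifferentiableAt ℝ (fderiv ℝ F) x := hc.differentiableAt (by simp)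
  exact h1.clm_apply (differentiableAt_const w)

theorem gen3 {F : V → V →L[ℝ] X} (x a : V) (h : DifferentiableAt ℝ F x) :
    DifferentiableAt ℝ (fun z => F z a) x :=
  h.clm_apply (differentiableAt_const a)

theorem gen4 {F : ℝ → V →L[ℝ] X} {F' : V →L[ℝ] X} (s : ℝ) (a : V) (h : HasDerivAt F F' s) :
    HasDerivAt (fun t => F t a) (F' a) s := by
  simpa using h.clm_apply (hasDerivAt_const s a)

theorem gen5 {F : V → X} (y w : V) (s : ℝ) (h : DifferentiableAt ℝ F (y + s • w)) :
    HasDerivAt (fun t : ℝ => F (y + t • w)) (fderiv ℝ F (y + s • w) w) s := by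
  have hl : HasDerivAt (fun t : ℝ => y + t • w) w s := by
    simpa using ((hasDerivAt_id s).smul_const w).const_add y
  exact HasFDerivAt.comp_hasDerivAt s h.hasFDerivAt hl

end generic

/-- derivative of `C` along a line -/
theorem hasDerivAt_line {q : ℕ} {C : TF q} {τ : E q → ℝ} (h : LW q C τ) (y w a b : E q) (s : ℝ)
    (hs : y + s • w ≠ 0) :
    HasDerivAt (fun t : ℝ => C (y + t • w) a b) (fderiv ℝ C (y + s • w) w a b) s :=
  gen4 s b (gen4 s a (gen1 y w s (h.smooth _ hs)))

theorem hasDerivAt_line2 {q : ℕ} {C : TF q} {τ : E q → ℝ} (h : LW q C τ) (y w a b : E q) (s : ℝ)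
    (hs : y + s • w ≠ 0) :
    HasDerivAt (fun t : ℝ => fderiv ℝ C (y + t • w) w a b) (D2 C (y + s • w) w w a b) s :=
  gen5 y w s (gen3 _ b (gen3 _ a (gen2 _ w (h.smooth _ hs))))

theorem snd (hKK : S_KK) (hQ : S_QUAD) (hST : S_STEP) : S_SND := by
  intro q C τ h r hMX e Z hZ hon y w hD hw i hi
  set la : ℝ → ℝ := fun s => lam C (y + s • w) (e i) with hla
  set dl : ℝ → ℝ := fun s => ⟪fderiv ℝ C (y + s • w) w (e i) (e i), e i⟫_ℝ with hdl
  set ddl : ℝ → ℝ := fun s => ⟪D2 C (y + s • w) w w (e i) (e i), e i⟫_ℝ with hddl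
  have hA : ∀ s, y + s • w ≠ 0 → HasDerivAt la (dl s) s := by
    intro s hs
    have := (hasDerivAt_line h y w (e i) (e i) s hs).inner ℝ (hasDerivAt_const s (e i))
    simpa [hla, hdl, lam] using this
  have hA2 : ∀ s, y + s • w ≠ 0 → HasDerivAt dl (ddl s) s := by
    intro s hs
    have := (hasDerivAt_line2 h y w (e i) (e i) s hs).inner ℝ (hasDerivAt_const s (e i))
    simpa [hddl, hdl] using this
  have hB := hST q C τ h r hMX e Z hZ hon y w hD hw
  have hC : ∀ z, Diag C e Z z → ∀ b, C z (e i) b = (lam C z (e i) * ⟪e i, b⟫_ℝ) • e i := by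
    intro z hz b
    rw [hz.form]
    rw [Finset.sum_eq_single i]
    · rw [hon i i, if_pos rfl, mul_one]
    · intro j _ hj
      rw [hon j i, if_neg hj, mul_zero, zero_mul, zero_smul]
    · intro hni
      exact absurd hi hni
  have hker : ∀ z, Diag C e Z z → C z w = 0 := by
    intro z hz
    ext1 b
    rw [hz.form]
    simp only [ContinuousLinearMap.zero_apply]
    apply Finset.sum_eq_zero
    intro j hj
    simp [hw j hj]
  have hRK : ∀ z, Diag C e Z z → RK C r z := by
    intro z hz
    let f : Fin r ≃ Z := (Finset.equivFinOfCardEq hZ).symm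
    refine ⟨fun k => e (f k), ?_⟩
    rw [Fintype.linearIndependent_iff]
    intro g hg k
    have h1 := congrArg (fun A : E q →L[ℝ] E q => ⟪A (e (f k)), e (f k)⟫_ℝ) hg
    simp only [ContinuousLinearMap.sum_apply, ContinuousLinearMap.smul_apply,
      ContinuousLinearMap.zero_apply, inner_zero_left, sum_inner] at h1
    rw [Finset.sum_eq_single k] at h1
    · have h2 : C z (e (f k)) (e (f k)) = lam C z (e (f k)) • e (f k) := by
        rw [hz.form]
        rw [Finset.sum_eq_single (f k : Fin (q+1))]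
        · rw [hon (f k) (f k), if_pos rfl, mul_one, mul_one]
        · intro j _ hj
          rw [hon j (f k), if_neg hj, mul_zero, zero_smul]
        · intro hni
          exact absurd (f k).2 hni
      rw [h2, inner_smul_left, inner_smul_left, hon] at h1
      simp at h1
      rcases h1 with h1 | h1
      · exact h1
      · exact absurd h1 (hz.nz _ (f k).2)
    · intro j _ hj
      have h2 : C z (e (f j)) (e (f k)) = 0 := by
        rw [hz.form]
        apply Finset.sum_eq_zero
        intro l hl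
        by_cases hlj : l = f j
        · have : l ≠ f k := by
            intro h'
            apply hj
            apply f.injective
            apply Subtype.ext
            rw [← hlj, h']
          rw [hon l (f k), if_neg this, mul_zero, zero_smul]
        · rw [hon l (f j), if_neg hlj, mul_zero, zero_mul, zero_smul]
      simp [h2]
    · intro h'
      exact absurd (Finset.mem_univ k) h'
  -- the differential equation
  have hODE : ∀ s, (∀ᶠ t in 𝓝 s, Diag C e Z (y + t • w)) → 2 * dl s ^ 2 = la s * ddl s := by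
    intro s hs
    have hs0 : Diag C e Z (y + s • w) := hs.self_of_nhds
    have hwk := hker _ hs0
    have hkk := (hKK q C τ h r hMX _ hs0.ne (hRK _ hs0) w w hwk hwk).1
    have hquad := hQ q C τ h _ hs0.ne w hwk hkk (e i) (e i)
    have hfd : ∀ b, fderiv ℝ C (y + s • w) w (e i) b = (dl s * ⟪e i, b⟫_ℝ) • e i := by
      intro b
      have h1 := hasDerivAt_line h y w (e i) b s hs0.ne
      have h2 : HasDerivAt (fun t : ℝ => (la t * ⟪e i, b⟫_ℝ) • e i) ((dl s * ⟪e i, b⟫_ℝ) • e i) s :=
        ((hA s hs0.ne).mul_const _).smul_const _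
      have h3 : (fun t : ℝ => C (y + t • w) (e i) b) =ᶠ[𝓝 s] (fun t : ℝ => (la t * ⟪e i, b⟫_ℝ) • e i) := by
        filter_upwards [hs] with t ht
        exact hC _ ht b
      exact h1.unique (h2.congr_of_eventuallyEq h3)
    have hii : ⟪e i, e i⟫_ℝ = 1 := by simpa using hon i i
    rw [hfd (e i), hfd, hC _ hs0] at hquad
    have h4 := congrArg (fun v => ⟪v, e i⟫_ℝ) hquad
    simp only [inner_smul_left, inner_smul_right, hii] at h4
    simp only [conj_trivial, mul_one] at h4
    have h5 : ⟪e i, D2 C (y + s • w) w w (e i) (e i)⟫_ℝ = ddl s := real_inner_comm _ _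
    rw [h5] at h4
    have h6 : lam C (y + s • w) (e i) = la s := rfl
    rw [h6] at h4
    linarith [h4, sq (dl s)]
  -- local interval
  obtain ⟨ε, hε, hball⟩ := Metric.eventually_nhds_iff_ball.mp hB.eventually_nhds
  have hnz : ∀ s ∈ Metric.ball (0:ℝ) ε, la s ≠ 0 := fun s hs => (hball s hs).self_of_nhds.nz i hi
  have hne : ∀ s ∈ Metric.ball (0:ℝ) ε, y + s • w ≠ 0 := fun s hs => (hball s hs).self_of_nhds.ne
  have h0 : (0:ℝ) ∈ Metric.ball (0:ℝ) ε := Metric.mem_ball_self hε
  have hpre : IsPreconnected (Metric.ball (0:ℝ) ε) := (convex_ball _ _).isPreconnected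
  have hder1 : ∀ s ∈ Metric.ball (0:ℝ) ε, HasDerivAt (fun t => - dl t / la t ^ 2) 0 s := by
    intro s hs
    have h1 := HasDerivAt.fun_div (HasDerivAt.fun_neg (hA2 s (hne s hs)))
      (HasDerivAt.fun_pow (hA s (hne s hs)) 2) (pow_ne_zero 2 (hnz s hs))
    have h2 := hODE s (hball s hs)
    have h3 := hnz s hs
    have h4 : (-ddl s * la s ^ 2 - -dl s * (↑2 * la s ^ (2 - 1) * dl s)) / (la s ^ 2) ^ 2 = 0 := by
      rw [div_eq_zero_iff]
      left
      simp only [Nat.add_one_sub_one, pow_one]
      linear_combination (la s) * h2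
    have h5 := h1
    simp only [Nat.cast_ofNat] at h5
    rw [h4] at h5
    exact h5
  have hconst1 : ∀ s ∈ Metric.ball (0:ℝ) ε, - dl s / la s ^ 2 = - dl 0 / la 0 ^ 2 := by
    intro s hs
    exact Metric.isOpen_ball.is_const_of_deriv_eq_zero hpre
      (fun t ht => (hder1 t ht).differentiableAt.differentiableWithinAt)
      (fun t ht => (hder1 t ht).deriv) hs h0
  set κ : ℝ := - dl 0 / la 0 ^ 2 with hκ
  have hder2 : ∀ s ∈ Metric.ball (0:ℝ) ε, HasDerivAt (fun t => (la t)⁻¹ - t * κ) 0 s := by
    intro s hs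
    have h1 := (HasDerivAt.fun_inv (hA s (hne s hs)) (hnz s hs)).fun_sub
      ((hasDerivAt_id s).mul_const κ)
    have h2 : - dl s / la s ^ 2 - 1 * κ = 0 := by rw [hconst1 s hs]; ring
    rw [h2] at h1
    exact h1
  have hconst2 : ∀ s ∈ Metric.ball (0:ℝ) ε, (la s)⁻¹ - s * κ = (la 0)⁻¹ - 0 * κ := by
    intro s hs
    exact Metric.isOpen_ball.is_const_of_deriv_eq_zero hpre
      (fun t ht => (hder2 t ht).differentiableAt.differentiableWithinAt)
      (fun t ht => (hder2 t ht).deriv) hs h0
  refine ⟨κ, ?_⟩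
  filter_upwards [Metric.ball_mem_nhds (0:ℝ) hε] with s hs
  have h1 := hconst2 s hs
  have h2 : la 0 = lam C y (e i) := by simp [hla]
  rw [h2] at h1
  have h3 : la s = lam C (y + s • w) (e i) := rfl
  rw [h3] at h1
  linarith

end Pool.Agent.W538.LG2
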